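import Mathlib

set_option autoImplicit false

namespace Pool.Agent.H.MP_c22137_lc

open Set Complex

/-- derivative data on the time interval -/
def D {E : Type} [NormedAddCommGroup E] [NormedSpace ℝ E] (T : ℝ) (f f' : ℝ → E) : Prop :=
  ∀ t ∈ Icc (0 : ℝ) T, HasDerivWithinAt f (f' t) (Icc 0 T) t

section
variable {E : Type} [NormedAddCommGroup E] [NormedSpace ℝ E] {T : ℝ}

theorem D.cont {f f' : ℝ → E} (h : D T f f') : ContinuousOn f (Icc 0 T) :=
  fun t ht => (h t ht).continuousWithinAt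

theorem D.of_at {f f' : ℝ → E} (h : ∀ t, HasDerivAt f (f' t) t) : D T f f' :=
  fun t _ => (h t).hasDerivWithinAt

theorem D.congr {f f' g' : ℝ → E} (h : D T f f') (e : ∀ t ∈ Icc (0 : ℝ) T, f' t = g' t) : D T f g' :=
  fun t ht => e t ht ▸ h t ht

theorem D.right {f f' : ℝ → E} (h : D T f f') : ∀ x ∈ Ico (0 : ℝ) T, HasDerivWithinAt f (f' x) (Ici x) x :=
  fun x hx => (h x (Ico_subset_Icc_self hx)).mono_of_mem_nhdsWithin (Icc_mem_nhdsGE_of_mem hx)

theorem D.zero {f f' : ℝ → E} {a : ℝ → ℝ} (h : D T f f') (ha : ContinuousOn a (Icc 0 T))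
    (b : ∀ t ∈ Icc (0 : ℝ) T, ‖f' t‖ ≤ a t * ‖f t‖) (h0 : f 0 = 0) : ∀ t ∈ Icc (0 : ℝ) T, f t = 0 := by
  obtain ⟨K, hK⟩ := isCompact_Icc.exists_bound_of_continuousOn ha
  refine eq_zero_of_abs_deriv_le_mul_abs_self_of_eq_zero_right (K := K) h.cont h.right h0 fun x hx => ?_
  have hx' := Ico_subset_Icc_self hx
  exact (b x hx').trans (mul_le_mul_of_nonneg_right ((le_abs_self _).trans (hK x hx')) (norm_nonneg _))

theorem D.const {f : ℝ → E} (h : D T f fun _ => 0) : ∀ t ∈ Icc (0 : ℝ) T, f t = f 0 :=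
  constant_of_has_deriv_right_zero h.cont h.right

end

variable {T : ℝ}

theorem D.anti {f f' : ℝ → ℝ} (h : D T f f') (b : ∀ t ∈ Icc (0 : ℝ) T, f' t ≤ 0) :
    ∀ t ∈ Icc (0 : ℝ) T, f t ≤ f 0 := fun t ht =>
  antitoneOn_of_hasDerivWithinAt_nonpos (convex_Icc 0 T) h.cont
    (fun x hx => (h x (interior_subset hx)).mono interior_subset) (fun x hx => b x (interior_subset hx))
    ⟨le_rfl, ht.1.trans ht.2⟩ ht ht.1

theorem filt1 {u β : ℝ → ℝ} {b M : ℝ} (hb : 0 ≤ b) (h : D T u fun t => b * (β t - u t))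
    (hβ : ∀ t ∈ Icc (0 : ℝ) T, β t ≤ M) (h0 : u 0 ≤ M) : ∀ t ∈ Icc (0 : ℝ) T, u t ≤ M := by
  intro t ht
  have k : D T (fun t => (u t - M) * Real.exp (b * t)) fun t => b * (β t - M) * Real.exp (b * t) := by
    intro s hs
    have e : HasDerivAt (fun t => Real.exp (b * t)) (Real.exp (b * s) * b) s := by
      simpa using ((hasDerivAt_id s).const_mul b).exp
    exact (((h s hs).sub_const M).fun_mul e.hasDerivWithinAt).congr_deriv (by ring)
  have := k.anti (fun s hs => mul_nonpos_of_nonpos_of_nonneg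
    (mul_nonpos_of_nonneg_of_nonpos hb (sub_nonpos.2 (hβ s hs))) (Real.exp_pos _).le) t ht
  simp only [mul_zero, Real.exp_zero, mul_one] at this
  have p := Real.exp_pos (b * t)
  by_contra c
  push Not at c
  nlinarith [mul_pos (sub_pos.2 c) p]

theorem filt {u β : ℝ → ℝ} {b M : ℝ} (hb : 0 ≤ b) (h : D T u fun t => b * (β t - u t))
    (hβ : ∀ t ∈ Icc (0 : ℝ) T, |β t| ≤ M) (h0 : |u 0| ≤ M) : ∀ t ∈ Icc (0 : ℝ) T, |u t| ≤ M := by
  intro t ht
  refine abs_le.2 ⟨?_, filt1 hb h (fun s hs => (le_abs_self _).trans (hβ s hs)) ((le_abs_self _).trans h0) t ht⟩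
  have := filt1 (u := fun t => - u t) (β := fun t => - β t) (M := M) hb
    (fun s hs => (h s hs).fun_neg.congr_deriv (by ring)) (fun s hs => (neg_le_abs _).trans (hβ s hs))
    ((neg_le_abs _).trans h0) t ht
  linarith

theorem grow {z R Φ Φ' : ℝ → ℝ} (h : D T z fun t => z t * R t) (k : D T Φ Φ')
    (b : ∀ t ∈ Icc (0 : ℝ) T, R t ≤ Φ' t) : ∀ t ∈ Icc (0 : ℝ) T, |z t| ≤ |z 0| * Real.exp (Φ t - Φ 0) := by
  intro t ht
  have k' : D T (fun t => (z t * Real.exp (-Φ t)) ^ 2) fun t => 2 * (z t * Real.exp (-Φ t)) ^ 2 * (R t - Φ' t) := by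
    intro s hs
    exact (((h s hs).fun_mul (k s hs).fun_neg.exp).fun_pow 2).congr_deriv (by simp; ring)
  have := k'.anti (fun s hs => mul_nonpos_of_nonneg_of_nonpos (by positivity) (sub_nonpos.2 (b s hs))) t ht
  have := sq_le_sq.1 this
  rw [abs_mul, abs_mul, abs_of_pos (Real.exp_pos _), abs_of_pos (Real.exp_pos _)] at this
  have e : |z t| = |z t| * Real.exp (-Φ t) * Real.exp (Φ t) := by
    rw [mul_assoc, ← Real.exp_add]; simp
  rw [e, sub_eq_neg_add, Real.exp_add, ← mul_assoc]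
  exact mul_le_mul_of_nonneg_right this (Real.exp_pos _).le

theorem grow' {z R : ℝ → ℝ} {c : ℝ} (h : D T z fun t => z t * R t)
    (b : ∀ t ∈ Icc (0 : ℝ) T, c ≤ R t) : ∀ t ∈ Icc (0 : ℝ) T, |z 0| * Real.exp (c * t) ≤ |z t| := by
  intro t ht
  have k' : D T (fun t => -(z t * Real.exp (-(c * t))) ^ 2) fun t => 2 * (z t * Real.exp (-(c * t))) ^ 2 * (c - R t) := by
    intro s hs
    have e : HasDerivAt (fun t => Real.exp (-(c * t))) (Real.exp (-(c * s)) * -c) s := by
      simpa using ((hasDerivAt_id s).const_mul c).neg.exp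
    exact (((h s hs).fun_mul e.hasDerivWithinAt).fun_pow 2).fun_neg.congr_deriv (by simp; ring)
  have := k'.anti (fun s hs => mul_nonpos_of_nonneg_of_nonpos (by positivity) (sub_nonpos.2 (b s hs))) t ht
  have := sq_le_sq.1 (neg_le_neg_iff.1 this)
  simp only [mul_zero, neg_zero, Real.exp_zero, mul_one] at this
  rw [abs_mul, abs_of_pos (Real.exp_pos _)] at this
  have e : |z t| = |z t| * Real.exp (-(c * t)) * Real.exp (c * t) := by
    rw [mul_assoc, ← Real.exp_add]; simp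
  rw [e]
  exact mul_le_mul_of_nonneg_right this (Real.exp_pos _).le

/-- rotation with initial value `a` and frequency `w` -/
noncomputable def rot (a : ℂ) (w t : ℝ) : ℂ := a * cexp (I * w * t)

theorem rot_zero (a : ℂ) (w : ℝ) : rot a w 0 = a := by simp [rot]

theorem norm_rot (a : ℂ) (w t : ℝ) : ‖rot a w t‖ = ‖a‖ := by
  have : I * w * t = ((w * t : ℝ) : ℂ) * I := by push_cast; ring
  rw [rot, norm_mul, this, norm_exp_ofReal_mul_I, mul_one]

theorem rot_deriv (a : ℂ) (w t : ℝ) : HasDerivAt (rot a w) (I * w * rot a w t) t := by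
  have := ((((hasDerivAt_id (t : ℂ)).const_mul (I * w)).cexp).const_mul a).comp_ofReal
  exact this.congr_deriv (by simp [rot]; ring)

theorem rot_mul (a b : ℂ) (w v t : ℝ) : rot a w t * rot b v t = rot (a * b) (w + v) t := by
  simp only [rot]
  push_cast
  rw [show I * (w + v) * t = I * w * t + I * v * t by ring, Complex.exp_add]
  ring

theorem rot_pow (a : ℂ) (w t : ℝ) (l : ℕ) : rot a w t ^ l = rot (a ^ l) (l * w) t := by
  induction l with
  | zero => simp [rot]
  | succ l ih => rw [pow_succ, ih, rot_mul, pow_succ]; push_cast; ring_nf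

theorem conj_rot (a : ℂ) (w t : ℝ) : (starRingEnd ℂ) (rot a w t) = rot ((starRingEnd ℂ) a) (-w) t := by
  simp only [rot, map_mul, ← Complex.exp_conj, conj_I, conj_ofReal]
  push_cast
  ring_nf

theorem rot_uniq {η : ℝ → ℂ} {w : ℝ} (h : D T η fun t => I * w * η t) : ∀ t ∈ Icc (0 : ℝ) T, η t = rot (η 0) w t := by
  intro t ht
  have k : D T (fun t => η t - rot (η 0) w t) fun t => I * w * (η t - rot (η 0) w t) := fun s hs =>
    ((h s hs).fun_sub (rot_deriv (η 0) w s).hasDerivWithinAt).congr_deriv (by ring)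
  exact sub_eq_zero.1 (k.zero (a := fun _ => |w|) continuousOn_const (fun s _ => by simp) (by simp [rot_zero]) t ht)

theorem geo_uniq {G : ℝ → ℂ} {w : ℝ} {a : ℂ} (h : D T G fun t => I * w * (G t - 1) * G t) (h0 : G 0 * (1 - a) = 1) :
    ∀ t ∈ Icc (0 : ℝ) T, G t * (1 - rot a w t) = 1 := by
  intro t ht
  have k : D T (fun t => G t * (1 - rot a w t) - 1) fun t => I * w * G t * (G t * (1 - rot a w t) - 1) := fun s hs =>
    (((h s hs).fun_mul ((rot_deriv a w s).hasDerivWithinAt.const_sub 1)).sub_const 1).congr_deriv (by ring)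
  refine sub_eq_zero.1 (k.zero (a := fun t => |w| * ‖G t‖) (continuousOn_const.mul h.cont.norm)
    (fun s _ => by simp) (by simp [rot_zero, h0]) t ht)

theorem geo_norm {G a : ℂ} (h : G * (1 - a) = 1) (ha : ‖a‖ ≤ 1 / 2) : ‖G‖ ≤ 2 := by
  have h1 : ‖G‖ * ‖1 - a‖ = 1 := by rw [← norm_mul, h, norm_one]
  have h2 : 1 / 2 ≤ ‖1 - a‖ := by
    have := norm_sub_norm_le (1 : ℂ) a
    simp only [norm_one] at this
    linarith
  nlinarith [norm_nonneg G]

theorem geo_sum {G a : ℂ} (h : G * (1 - a) = 1) (N : ℕ) : G = ∑ l ∈ Finset.range N, a ^ l + a ^ N * G := by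
  induction N with
  | zero => simp
  | succ N ih => rw [Finset.sum_range_succ, pow_succ]; linear_combination ih + a ^ N * h

/-- the forcing term minus one harmonic has a bounded primitive up to a small remainder -/
theorem four (a b : ℂ) (w v μ : ℝ) (ha : ‖a‖ ≤ 1 / 2) (hμ : 0 < μ) (N k : ℕ) (hk : k < N)
    (hf : ∀ l ≠ k, μ ≤ |l * w - v|) : ∃ A A' : ℝ → ℝ, (∀ t, HasDerivAt A (A' t) t) ∧ (∀ t, |A t| ≤ 2 * ‖b‖ / μ) ∧
      ∀ t, ∀ G : ℂ, G * (1 - rot a w t) = 1 → |(G * (starRingEnd ℂ) (rot b v t)).re - A' t -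
        (rot (a ^ k * (starRingEnd ℂ) b) (k * w - v) t).re| ≤ 2 * ‖a‖ ^ N * ‖b‖ := by
  let S := (Finset.range N).erase k
  let c : ℕ → ℝ → ℂ := fun l => rot (a ^ l * (starRingEnd ℂ) b) (l * w - v)
  have hn : ∀ l t, ‖c l t‖ = ‖a‖ ^ l * ‖b‖ := fun l t => by simp [c, norm_rot]
  refine ⟨fun t => (∑ l ∈ S, c l t / (I * ((l * w - v : ℝ) : ℂ))).re, fun t => (∑ l ∈ S, c l t).re, fun t => ?_, fun t => ?_,
    fun t G hG => ?_⟩
  · have : HasDerivAt (fun t => ∑ l ∈ S, c l t / (I * ((l * w - v : ℝ) : ℂ))) (∑ l ∈ S, c l t) t := by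
      refine HasDerivAt.fun_sum fun l hl => ?_
      have h0 : ((l * w - v : ℝ) : ℂ) ≠ 0 := by
        have := hf l (Finset.mem_erase.1 hl).1
        intro e
        rw [ofReal_eq_zero.1 e] at this
        simp at this
        linarith
      exact ((rot_deriv (a ^ l * (starRingEnd ℂ) b) (l * w - v) t).div_const (I * ((l * w - v : ℝ) : ℂ))).congr_deriv
        (mul_div_cancel_left₀ _ (mul_ne_zero I_ne_zero h0))
    exact reCLM.hasFDerivAt.comp_hasDerivAt t this
  · refine (abs_re_le_norm _).trans ((norm_sum_le _ _).trans ?_)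
    calc ∑ l ∈ S, ‖c l t / (I * ((l * w - v : ℝ) : ℂ))‖ ≤ ∑ l ∈ S, (1 / 2 : ℝ) ^ l * (‖b‖ / μ) := by
          refine Finset.sum_le_sum fun l hl => ?_
          rw [norm_div, hn, norm_mul, norm_I, one_mul, norm_real, Real.norm_eq_abs, mul_div_assoc]
          have := hf l (Finset.mem_erase.1 hl).1
          gcongr
      _ ≤ ∑ l ∈ Finset.range N, (1 / 2 : ℝ) ^ l * (‖b‖ / μ) :=
          Finset.sum_le_sum_of_subset_of_nonneg (Finset.erase_subset _ _) fun _ _ _ => by positivity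
      _ ≤ 2 * ‖b‖ / μ := by
          rw [← Finset.sum_mul, mul_div_assoc]
          exact mul_le_mul_of_nonneg_right (sum_geometric_two_le N) (by positivity)
  · have e : G * (starRingEnd ℂ) (rot b v t) = ∑ l ∈ S, c l t + c k t +
        rot a w t ^ N * G * (starRingEnd ℂ) (rot b v t) := by
      rw [Finset.sum_erase_add _ _ (Finset.mem_range.2 hk)]
      conv_lhs => rw [geo_sum hG N]
      rw [add_mul, Finset.sum_mul]
      congr 1
      refine Finset.sum_congr rfl fun l _ => ?_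
      rw [rot_pow, conj_rot, rot_mul, ← sub_eq_add_neg]
    rw [e]
    simp only [add_re]
    have := abs_re_le_norm (rot a w t ^ N * G * (starRingEnd ℂ) (rot b v t))
    rw [norm_mul, norm_mul, norm_pow, norm_rot, RCLike.norm_conj, norm_rot] at this
    have g := geo_norm hG (by rwa [norm_rot])
    have e2 : ∀ x y z : ℝ, x + y + z - x - y = z := fun x y z => by ring
    change |_ + (c k t).re + _ - _ - (c k t).re| ≤ _
    rw [e2]
    refine this.trans ?_
    have : 0 ≤ ‖a‖ ^ N * ‖b‖ := by positivity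
    nlinarith

end Pool.Agent.H.MP_c22137_lc
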