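import Mathlib
import Pool.Agent.H.MP_c22137_lc.A

set_option autoImplicit false

namespace Pool.Agent.H.MP_c22137_lc

open Set Complex Sum

/-- state coordinates: z, w, Y, g1, g2 and for each unknown a frequency, a rotation (c, s) and a filter q -/
abbrev V (ι : Type) := Fin 5 ⊕ ι × Fin 4

variable {ι : Type} [Fintype ι] (Pn : ℝ → (ι → ℝ) → ℝ)

/-- growth rate of the coordinate z -/
def rate (w Y : ℝ) (ω q : ι → ℝ) : ℝ := w ^ 2 * Y ^ 2 - Y ^ 4 - 2 * w ^ 2 * ∑ j, (q j - Y) ^ 2 - Pn w ω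

/-- the vector field -/
def fld (x : V ι → ℝ) : V ι → ℝ
  | inl a => ![x (inl 0) * rate Pn (x (inl 1)) (x (inl 2)) (fun j => x (inr (j, 0))) (fun j => x (inr (j, 3))), 0, 0,
      -(x (inl 1) * (x (inl 4) + 2 * x (inl 3) * x (inl 4))), x (inl 1) * (x (inl 3) + x (inl 3) ^ 2 - x (inl 4) ^ 2)] a
  | inr (j, a) => ![0, -(x (inr (j, 0)) * x (inr (j, 2))), x (inr (j, 0)) * x (inr (j, 1)),
      x (inl 1) ^ 2 * ((1 + x (inl 3)) * x (inr (j, 1)) + x (inl 4) * x (inr (j, 2)) - x (inr (j, 3)))] a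

/-- complex coordinate one plus g -/
noncomputable def GG (x : V ι → ℝ) : ℂ := 1 + x (inl 3) + x (inl 4) * I
/-- complex rotation coordinate -/
noncomputable def bb (x : V ι → ℝ) (j : ι) : ℂ := x (inr (j, 1)) + x (inr (j, 2)) * I

variable {Pn} {T : ℝ} {γ : ℝ → V ι → ℝ}

theorem expl (h : D T γ fun t => fld Pn (γ t)) {a : ℂ} (ha : GG (γ 0) * (1 - a) = 1) :
    (∀ t ∈ Icc (0 : ℝ) T, γ t (inl 1) = γ 0 (inl 1) ∧ γ t (inl 2) = γ 0 (inl 2) ∧ (∀ j, γ t (inr (j, 0)) = γ 0 (inr (j, 0))) ∧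
      GG (γ t) * (1 - rot a (γ 0 (inl 1)) t) = 1 ∧ ∀ j, bb (γ t) j = rot (bb (γ 0) j) (γ 0 (inr (j, 0))) t) ∧
    (∀ j, D T (fun t => γ t (inr (j, 3))) fun t => γ 0 (inl 1) ^ 2 *
      ((GG (γ t) * (starRingEnd ℂ) (rot (bb (γ 0) j) (γ 0 (inr (j, 0))) t)).re - γ t (inr (j, 3)))) ∧
    D T (fun t => γ t (inl 0)) fun t => γ t (inl 0) *
      rate Pn (γ 0 (inl 1)) (γ 0 (inl 2)) (fun j => γ 0 (inr (j, 0))) (fun j => γ t (inr (j, 3))) := by
  have c : ∀ v, D T (fun t => γ t v) fun t => fld Pn (γ t) v := fun v t ht => hasDerivWithinAt_pi.1 (h t ht) v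
  have c1 := D.const (T := T) (c (inl 1))
  have c2 := D.const (T := T) (c (inl 2))
  have c3 := fun j => D.const (T := T) (c (inr (j, 0)))
  have c4 : D T (fun t => GG (γ t)) fun t => I * (γ 0 (inl 1) : ℝ) * (GG (γ t) - 1) * GG (γ t) := fun t ht =>
    (((c (inl 3) t ht).ofReal_comp.const_add 1).fun_add ((c (inl 4) t ht).ofReal_comp.mul_const I)).congr_deriv (by
      simp only [fld, GG, ← c1 t ht]
      apply Complex.ext <;> simp [pow_two] <;> ring)
  have c5 : ∀ j, D T (fun t => bb (γ t) j) fun t => I * (γ 0 (inr (j, 0)) : ℝ) * bb (γ t) j := fun j t ht =>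
    (((c (inr (j, 1)) t ht).ofReal_comp).fun_add ((c (inr (j, 2)) t ht).ofReal_comp.mul_const I)).congr_deriv (by
      simp only [fld, bb, ← c3 j t ht]
      apply Complex.ext <;> simp)
  have c6 := fun j => rot_uniq (c5 j)
  refine ⟨fun t ht => ⟨c1 t ht, c2 t ht, fun j => c3 j t ht, geo_uniq c4 ha t ht, fun j => c6 j t ht⟩, fun j =>
    (c (inr (j, 3))).congr fun t ht => ?_, (c (inl 0)).congr fun t ht => ?_⟩
  · rw [← c6 j t ht, ← c1 t ht]
    simp [fld, GG, bb]
  · simp only [fld, Matrix.cons_val_zero, c1 t ht, c2 t ht, c3 _ t ht]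

theorem exists_sol (x : V ι → ℝ) {a : ℂ} (ha : GG x * (1 - a) = 1) (hn : ‖a‖ < 1) :
    ∃ γ : ℝ → V ι → ℝ, γ 0 = x ∧ ∀ t, HasDerivAt γ (fld Pn (γ t)) t := by
  let w := x (inl 1)
  have h1 : ∀ t, 1 - rot a w t ≠ 0 := fun t e => by
    have := norm_rot a w t
    rw [← sub_eq_zero.1 e, norm_one] at this
    linarith
  let G : ℝ → ℂ := fun t => (1 - rot a w t)⁻¹
  have dG : ∀ t, HasDerivAt G (I * w * (G t - 1) * G t) t := fun t =>
    (((rot_deriv a w t).const_sub 1).fun_inv (h1 t)).congr_deriv (by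
      have := h1 t
      simp only [G]
      field_simp
      ring)
  let η : ι → ℝ → ℂ := fun j => rot (bb x j) (x (inr (j, 0)))
  have dη : ∀ j t, HasDerivAt (η j) (I * (x (inr (j, 0)) : ℝ) * η j t) t := fun j t => rot_deriv _ _ t
  have cG : Continuous G := continuous_iff_continuousAt.2 fun t => (dG t).continuousAt
  have cη : ∀ j, Continuous (η j) := fun j => continuous_iff_continuousAt.2 fun t => (dη j t).continuousAt
  let F : ι → ℝ → ℝ := fun j t => (G t).re * (η j t).re + (G t).im * (η j t).im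
  have cF : ∀ j, Continuous (F j) := fun j => by have := cη j; fun_prop
  let q : ι → ℝ → ℝ := fun j t => Real.exp (-(w ^ 2 * t)) * (x (inr (j, 3)) + ∫ s in (0 : ℝ)..t, w ^ 2 * Real.exp (w ^ 2 * s) * F j s)
  have dq : ∀ j t, HasDerivAt (q j) (w ^ 2 * (F j t - q j t)) t := fun j t => by
    have e : HasDerivAt (fun t => Real.exp (-(w ^ 2 * t))) (Real.exp (-(w ^ 2 * t)) * -w ^ 2) t := by
      simpa using ((hasDerivAt_id t).const_mul (w ^ 2)).neg.exp
    have i := (Continuous.integral_hasStrictDerivAt (f := fun s => w ^ 2 * Real.exp (w ^ 2 * s) * F j s)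
      (by have := cF j; fun_prop) 0 t).hasDerivAt
    refine (e.fun_mul (i.const_add _)).congr_deriv ?_
    have : Real.exp (-(w ^ 2 * t)) * Real.exp (w ^ 2 * t) = 1 := by rw [← Real.exp_add]; simp
    simp only [q]
    linear_combination w ^ 2 * F j t * this
  have cq : ∀ j, Continuous (q j) := fun j => continuous_iff_continuousAt.2 fun t => (dq j t).continuousAt
  let R : ℝ → ℝ := fun t => rate Pn w (x (inl 2)) (fun j => x (inr (j, 0))) fun j => q j t
  have cR : Continuous R := by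
    simp only [R, rate]
    fun_prop
  let z : ℝ → ℝ := fun t => x (inl 0) * Real.exp (∫ s in (0 : ℝ)..t, R s)
  have dz : ∀ t, HasDerivAt z (z t * R t) t := fun t =>
    ((cR.integral_hasStrictDerivAt 0 t).hasDerivAt.exp.const_mul _).congr_deriv (by simp only [z]; ring)
  have G0 : G 0 = GG x := by
    simp only [G, rot_zero]
    exact (eq_inv_of_mul_eq_one_left ha).symm
  refine ⟨fun t v => match v with
    | inl i => ![z t, w, x (inl 2), (G t).re - 1, (G t).im] i
    | inr (j, i) => ![x (inr (j, 0)), (η j t).re, (η j t).im, q j t] i, ?_, fun t => hasDerivAt_pi.2 fun v => ?_⟩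
  · ext v
    rcases v with i | ⟨j, i⟩ <;> fin_cases i <;> simp [z, w, G0, GG, η, rot_zero, bb, q]
  · have r1 := reCLM.hasFDerivAt.comp_hasDerivAt t (dG t)
    have r2 := imCLM.hasFDerivAt.comp_hasDerivAt t (dG t)
    rcases v with i | ⟨j, i⟩
    · fin_cases i
      · exact dz t
      · exact hasDerivAt_const _ _
      · exact hasDerivAt_const _ _
      · exact (r1.sub_const 1).congr_deriv (by simp [fld]; ring)
      · exact r2.congr_deriv (by simp [fld]; ring)
    · have r3 := reCLM.hasFDerivAt.comp_hasDerivAt t (dη j t)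
      have r4 := imCLM.hasFDerivAt.comp_hasDerivAt t (dη j t)
      fin_cases i
      · exact hasDerivAt_const _ _
      · exact r3.congr_deriv (by simp [fld])
      · exact r4.congr_deriv (by simp [fld])
      · exact (dq j t).congr_deriv (by simp [fld, F])

end Pool.Agent.H.MP_c22137_lc
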