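import Mathlib
import Pool.Agent.H.MP_c22137_lc.B

set_option autoImplicit false

namespace Pool.Agent.H.MP_c22137_lc

open Set Complex Sum

variable {ι : Type} [Fintype ι] {Pn : ℝ → (ι → ℝ) → ℝ}

theorem norm_two (u v δ : ℝ) (hu : |u| ≤ δ) (hv : |v| ≤ δ) : ‖(u : ℂ) + v * I‖ ≤ 2 * δ := by
  refine (norm_add_le _ _).trans ?_
  simp only [norm_real, Real.norm_eq_abs, norm_mul, norm_I, mul_one]
  linarith

theorem exists_a (x : V ι → ℝ) {δ : ℝ} (hδ : δ ≤ 1 / 8) (hx : ∀ v, |x v| ≤ δ) : ∃ a, GG x * (1 - a) = 1 ∧ ‖a‖ ≤ 3 * δ := by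
  have h1 := norm_two _ _ δ (hx (inl 3)) (hx (inl 4))
  have e : GG x = 1 + ((x (inl 3) : ℂ) + x (inl 4) * I) := by simp [GG, add_assoc]
  generalize (x (inl 3) : ℂ) + x (inl 4) * I = g at h1 e
  have h2 : 3 / 4 ≤ ‖1 + g‖ := by
    have := norm_sub_norm_le (1 : ℂ) (-g)
    simp only [norm_one, norm_neg, sub_neg_eq_add] at this
    linarith
  have h3 : 1 + g ≠ 0 := fun c => by rw [c, norm_zero] at h2; linarith
  refine ⟨g / (1 + g), by rw [e]; field_simp; ring, ?_⟩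
  rw [norm_div, div_le_iff₀ (by linarith)]
  have : 0 ≤ δ := (abs_nonneg _).trans (hx (inl 0))
  nlinarith

theorem small {r ρ y : ℝ} (h0 : 0 ≤ r) (hr : r ≤ 1 / 2) (hρ : ρ ≤ 1) (hy : 0 < y) (l : ℕ) : ∃ N, l < N ∧ r ^ N * ρ ≤ y := by
  obtain ⟨n, hn⟩ := exists_pow_lt_of_lt_one hy (show (1 / 2 : ℝ) < 1 by norm_num)
  refine ⟨n + l + 1, by omega, ?_⟩
  have h1 : r ^ (n + l + 1) ≤ (1 / 2) ^ (n + l + 1) := pow_le_pow_left₀ h0 hr _
  have h2 : (1 / 2 : ℝ) ^ (n + l + 1) ≤ (1 / 2) ^ n := pow_le_pow_of_le_one (by norm_num) (by norm_num) (by omega)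
  have : 0 ≤ r ^ (n + l + 1) := by positivity
  nlinarith

theorem stab (h0 : ∀ w ω, 0 ≤ Pn w ω) {θ : ℝ} (hθ : 0 < θ)
    (H : ∀ (w Y : ℝ) (ω : ι → ℝ) (k : ι → ℕ), 0 < |Y| → |Y| < |w| → Pn w ω < w ^ 2 * Y ^ 2 →
      ¬ ∀ j, |k j * w - ω j| < |Y| * |w| ∧ |Y| * (k j + 1) ≤ θ) {ε : ℝ} (hε : 0 < ε) :
    ∃ δ, 0 < δ ∧ δ ≤ 1 / 8 ∧ ∀ (T : ℝ) (γ : ℝ → V ι → ℝ), ‖γ 0‖ < δ → (D T γ fun t => fld Pn (γ t)) →
      ∀ t ∈ Icc (0 : ℝ) T, ‖γ t‖ < ε := by
  obtain ⟨δ, d0, d1, d2, d3⟩ : ∃ δ : ℝ, 0 < δ ∧ δ ≤ 1 / 8 ∧ 7 * δ ≤ ε ∧ 16 * δ ≤ θ :=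
    ⟨min (1 / 8) (min (ε / 7) (θ / 16)), by positivity, min_le_left _ _,
      by have := (min_le_right (1 / 8) _).trans (min_le_left (ε / 7) (θ / 16)); linarith,
      by have := (min_le_right (1 / 8) _).trans (min_le_right (ε / 7) (θ / 16)); linarith⟩
  refine ⟨δ, d0, d1, fun T γ hγ h => ?_⟩
  have hx : ∀ v, |γ 0 v| ≤ δ := fun v => (norm_le_pi_norm (γ 0) v).trans hγ.le
  obtain ⟨a, ha, an⟩ := exists_a (γ 0) d1 hx
  have a2 : ‖a‖ ≤ 1 / 2 := by linarith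
  obtain ⟨e1, e2, e3⟩ := expl h ha
  have bn : ∀ j, ‖bb (γ 0) j‖ ≤ 2 * δ := fun j => norm_two _ _ δ (hx _) (hx _)
  have Gn : ∀ t ∈ Icc (0 : ℝ) T, ‖GG (γ t)‖ ≤ 2 := fun t ht => geo_norm (e1 t ht).2.2.2.1 (by rwa [norm_rot])
  have qn : ∀ j, ∀ t ∈ Icc (0 : ℝ) T, |γ t (inr (j, 3))| ≤ 4 * δ := fun j =>
    filt (sq_nonneg _) (e2 j) (fun t ht => (abs_re_le_norm _).trans (by
      rw [norm_mul, RCLike.norm_conj, norm_rot]
      nlinarith [Gn t ht, bn j, norm_nonneg (bb (γ 0) j), norm_nonneg (GG (γ t))])) ((hx _).trans (by linarith))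
  have zn : ∀ t ∈ Icc (0 : ℝ) T, |γ t (inl 0)| ≤ 3 * δ := by
    suffices ∃ Φ Φ' : ℝ → ℝ, D T Φ Φ' ∧ (∀ t ∈ Icc (0 : ℝ) T, |Φ t| ≤ 1 / 2) ∧ ∀ t ∈ Icc (0 : ℝ) T,
        rate Pn (γ 0 (inl 1)) (γ 0 (inl 2)) (fun j => γ 0 (inr (j, 0))) (fun j => γ t (inr (j, 3))) ≤ Φ' t by
      obtain ⟨Φ, Φ', k1, k2, k3⟩ := this
      intro t ht
      refine (grow e3 k1 k3 t ht).trans ?_
      have k4 : Real.exp (Φ t - Φ 0) ≤ 3 := by
        refine (Real.exp_le_exp.2 (show _ ≤ 1 from ?_)).trans (Real.exp_one_lt_d9.le.trans (by norm_num))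
        have := abs_le.1 (k2 t ht)
        have := abs_le.1 (k2 0 ⟨le_rfl, ht.1.trans ht.2⟩)
        linarith
      nlinarith [hx (inl 0), abs_nonneg (γ 0 (inl 0)), Real.exp_pos (Φ t - Φ 0)]
    have hw := hx (inl 1)
    have hY := hx (inl 2)
    have hq := e2
    generalize γ 0 (inl 1) = w at *
    generalize γ 0 (inl 2) = Y at *
    by_cases triv : w ^ 2 * Y ^ 2 ≤ Y ^ 4 + Pn w fun j => γ 0 (inr (j, 0))
    · refine ⟨fun _ => 0, fun _ => 0, D.of_at fun t => hasDerivAt_const _ _, fun _ _ => by norm_num, fun t _ => ?_⟩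
      have : 0 ≤ 2 * w ^ 2 * ∑ j, (γ t (inr (j, 3)) - Y) ^ 2 := by positivity
      simp only [rate]
      linarith
    push Not at triv
    have p0 := h0 w fun j => γ 0 (inr (j, 0))
    have Y0 : 0 < |Y| := abs_pos.2 fun c => by simp [c] at triv; linarith
    have Yw : |Y| < |w| := by
      refine sq_lt_sq.1 (lt_of_mul_lt_mul_right (a := Y ^ 2) ?_ (sq_nonneg _))
      nlinarith
    have w0 : 0 < |w| := Y0.trans Yw
    obtain ⟨j, l, g1, g2⟩ : ∃ j, ∃ l : ℕ, ‖a‖ ^ l * ‖bb (γ 0) j‖ ≤ |Y| / 8 ∧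
        ∀ l' ≠ l, |Y| * |w| ≤ |(l' : ℕ) * w - γ 0 (inr (j, 0))| := by
      by_contra c
      push Not at c
      have : ∀ j, ∃ l : ℕ, |l * w - γ 0 (inr (j, 0))| < |Y| * |w| ∧ |Y| * (l + 1) ≤ θ := fun j => by
        obtain ⟨N, -, hN⟩ := small (norm_nonneg a) a2 (show ‖bb (γ 0) j‖ ≤ 1 by linarith [bn j]) (show 0 < |Y| / 8 by positivity) 0
        obtain ⟨l, -, hl⟩ := c j N hN
        refine ⟨l, hl, ?_⟩
        by_contra c2
        push Not at c2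
        have k1 : ‖a‖ ^ l ≤ (1 / 2) ^ l := pow_le_pow_left₀ (norm_nonneg _) a2 _
        have k2 : ((l : ℝ) + 1) * (1 / 2) ^ l ≤ 1 := by
          have : (l : ℝ) + 1 ≤ 2 ^ l := by exact_mod_cast Nat.lt_two_pow_self
          rw [one_div, inv_pow, mul_inv_le_iff₀ (by positivity)]
          linarith
        obtain ⟨l', n, hl'⟩ := c j l (by
          have k3 : ‖a‖ ^ l * ‖bb (γ 0) j‖ ≤ (1 / 2) ^ l * (2 * δ) := by gcongr; exact bn j
          have k4 : (0 : ℝ) < l + 1 := by positivity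
          refine k3.trans (le_of_mul_le_mul_left ?_ k4)
          nlinarith)
        have k5 : (1 : ℝ) ≤ |(l' : ℝ) - l| := by
          have : (1 : ℤ) ≤ |(l' : ℤ) - l| := Int.one_le_abs (sub_ne_zero.2 (by exact_mod_cast n))
          exact_mod_cast this
        have k6 : |(l' : ℝ) - l| * |w| ≤ |l' * w - γ 0 (inr (j, 0))| + |l * w - γ 0 (inr (j, 0))| := by
          rw [← abs_mul, show ((l' : ℝ) - l) * w = (l' * w - γ 0 (inr (j, 0))) - (l * w - γ 0 (inr (j, 0))) by ring]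
          exact abs_sub _ _
        nlinarith
      choose k hk using this
      exact H w Y _ k Y0 Yw (by nlinarith [pow_nonneg (sq_nonneg Y) 2]) hk
    obtain ⟨N, hN, hN'⟩ := small (norm_nonneg a) a2 (show ‖bb (γ 0) j‖ ≤ 1 by linarith [bn j]) (show 0 < |Y| / 16 by positivity) l
    obtain ⟨A, A', f1, f2, f3⟩ := four a (bb (γ 0) j) w (γ 0 (inr (j, 0))) _ a2 (mul_pos Y0 w0) N l hN g2
    refine ⟨fun t => 4 * Y * w ^ 2 * A t - 4 * Y * γ t (inr (j, 3)), _, fun t ht =>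
      ((f1 t).hasDerivWithinAt.const_mul _).fun_sub ((hq j t ht).const_mul _), fun t ht => ?_, fun t ht => ?_⟩
    · refine (abs_sub _ _).trans ?_
      have k1 := qn j t ht
      have k2 := f2 t
      rw [le_div_iff₀ (mul_pos Y0 w0)] at k2
      have k3 : |4 * Y * w ^ 2 * A t| = 4 * |w| * (|A t| * (|Y| * |w|)) := by
        rw [abs_mul, abs_mul, abs_mul, abs_pow, show |(4 : ℝ)| = 4 by norm_num]
        ring
      have k4 : |4 * Y * γ t (inr (j, 3))| = 4 * (|Y| * |γ t (inr (j, 3))|) := by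
        simp only [abs_mul]
        norm_num
        ring
      have k5 : |Y| * |γ t (inr (j, 3))| ≤ δ * (4 * δ) := by gcongr
      have k6 : |w| * (|A t| * (|Y| * |w|)) ≤ δ * (2 * (2 * δ)) :=
        mul_le_mul hw (k2.trans (by linarith [bn j])) (by positivity) d0.le
      rw [k3, k4]
      nlinarith
    · have k1 := f3 t _ (e1 t ht).2.2.2.1
      beta_reduce
      have k2 := abs_re_le_norm (rot (a ^ l * (starRingEnd ℂ) (bb (γ 0) j)) (l * w - γ 0 (inr (j, 0))) t)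
      rw [norm_rot, norm_mul, norm_pow, RCLike.norm_conj] at k2
      generalize (GG (γ t) * (starRingEnd ℂ) (rot (bb (γ 0) j) (γ 0 (inr (j, 0))) t)).re = F at k1 ⊢
      generalize (rot (a ^ l * (starRingEnd ℂ) (bb (γ 0) j)) (l * w - γ 0 (inr (j, 0))) t).re = c at k1 k2
      have k3 : |F - A' t| ≤ |Y| / 4 := by
        have := abs_add_le (F - A' t - c) c
        rw [sub_add_cancel] at this
        linarith
      have k4 : Y * (F - A' t) ≤ Y ^ 2 / 4 := by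
        refine (le_abs_self _).trans ?_
        rw [abs_mul, ← sq_abs]
        nlinarith
      have k5 : (γ t (inr (j, 3)) - Y) ^ 2 ≤ ∑ j, (γ t (inr (j, 3)) - Y) ^ 2 :=
        Finset.single_le_sum (f := fun j => (γ t (inr (j, 3)) - Y) ^ 2) (fun _ _ => sq_nonneg _) (Finset.mem_univ j)
      simp only [rate]
      have k6 := mul_le_mul_of_nonneg_left k4 (sq_nonneg w)
      have k7 := mul_le_mul_of_nonneg_left k5 (sq_nonneg w)
      have k8 : 0 ≤ w ^ 2 * γ t (inr (j, 3)) ^ 2 := by positivity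
      have k9 : 0 ≤ Y ^ 4 := by positivity
      nlinarith
  intro t ht
  obtain ⟨u1, u2, u3, u4, u5⟩ := e1 t ht
  have g1 : ‖GG (γ t) - 1‖ ≤ 6 * δ := by
    rw [show GG (γ t) - 1 = GG (γ t) * rot a (γ 0 (inl 1)) t by linear_combination u4, norm_mul, norm_rot]
    nlinarith [Gn t ht, norm_nonneg a, norm_nonneg (GG (γ t))]
  have g2 : ∀ j, ‖bb (γ t) j‖ ≤ 2 * δ := fun j => by rw [u5, norm_rot]; exact bn j
  refine lt_of_le_of_lt ((pi_norm_le_iff_of_nonneg (show 0 ≤ 6 * δ by positivity)).2 fun v => ?_) (by linarith)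
  rw [Real.norm_eq_abs]
  rcases v with i | ⟨j, i⟩ <;> fin_cases i
  · exact (zn t ht).trans (by linarith)
  · exact (u1 ▸ hx (inl 1) :).trans (by linarith)
  · exact (u2 ▸ hx (inl 2) :).trans (by linarith)
  · simpa [GG] using (abs_re_le_norm _).trans g1
  · simpa [GG] using (abs_im_le_norm _).trans g1
  · exact (u3 j ▸ hx (inr (j, 0)) :).trans (by linarith)
  · simpa [bb] using ((abs_re_le_norm _).trans (g2 j)).trans (show _ ≤ 6 * δ by linarith)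
  · simpa [bb] using ((abs_im_le_norm _).trans (g2 j)).trans (show _ ≤ 6 * δ by linarith)
  · exact (qn j t ht).trans (by linarith)

end Pool.Agent.H.MP_c22137_lc
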