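import Mathlib
import Pool.Agent.H.MP_c22137_lc.C

set_option autoImplicit false

namespace Pool.Agent.H.MP_c22137_lc

open Set Complex Sum

variable {ι : Type} [Fintype ι] {Pn : ℝ → (ι → ℝ) → ℝ}

theorem unst (k : ι → ℕ) (hk : ∀ w, Pn w (fun j => k j * w) = 0) {δ : ℝ} (hδ : 0 < δ) :
    ∃ x : V ι → ℝ, ‖x‖ < δ ∧ (∃ a, GG x * (1 - a) = 1 ∧ ‖a‖ < 1) ∧ ∃ T, 0 ≤ T ∧
      ∀ γ : ℝ → V ι → ℝ, γ 0 = x → (D T γ fun t => fld Pn (γ t)) → 1 ≤ ‖γ T‖ := by
  obtain ⟨r, r0, r1, r2⟩ : ∃ r : ℝ, 0 < r ∧ r ≤ 1 / 4 ∧ 4 * r ≤ δ :=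
    ⟨min (1 / 4) (δ / 4), by positivity, min_le_left _ _, by have := min_le_right (1 / 4) (δ / 4); linarith⟩
  obtain ⟨K, hK⟩ : ∃ K : ℕ, ∀ j, k j ≤ K :=
    ⟨∑ j, k j, fun j => Finset.single_le_sum (f := k) (fun _ _ => Nat.zero_le _) (Finset.mem_univ j)⟩
  obtain ⟨m, hm⟩ : ∃ m : ℝ, m = Fintype.card ι := ⟨_, rfl⟩
  have m0 : 0 ≤ m := by rw [hm]; positivity
  obtain ⟨s, s0, s1, s2⟩ : ∃ s : ℝ, 0 < s ∧ s * (K + 1) ≤ r ∧ 60 * s * (m + 1) ≤ 1 := by
    refine ⟨min (r / (K + 1)) (1 / (60 * (m + 1))), by positivity, ?_, ?_⟩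
    · exact (le_div_iff₀ (by positivity)).1 (min_le_left _ _)
    · have := (le_div_iff₀ (show 0 < 60 * (m + 1) by positivity)).1 (min_le_right (r / (K + 1)) (1 / (60 * (m + 1))))
      linarith
  have P0 : 0 < r ^ K := by positivity
  have P1 : ∀ j, r ^ K ≤ r ^ k j := fun j => pow_le_pow_of_le_one r0.le (by linarith) (hK j)
  have P2 : r ^ K ≤ 1 := pow_le_one₀ r0.le (by linarith)
  have K0 : (0 : ℝ) ≤ K := by positivity
  obtain ⟨w, hw⟩ : ∃ w : ℝ, w = r ^ K * s := ⟨_, rfl⟩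
  have w0 : 0 < w := by rw [hw]; positivity
  have w1 : w ≤ s := by nlinarith
  have sr : s ≤ r := by nlinarith
  obtain ⟨Y, hY⟩ : ∃ Y : ℝ, Y = w / 2 := ⟨_, rfl⟩
  have Y0 : 0 < Y := by linarith
  have ρ0 : ∀ j, 0 < Y / r ^ k j := fun j => by positivity
  have ρ1 : ∀ j, w * (Y / r ^ k j) ≤ s * Y := fun j => by
    rw [← mul_div_assoc, div_le_iff₀ (by positivity), hw]
    have := mul_le_mul_of_nonneg_left (P1 j) (mul_pos s0 Y0).le
    linarith
  have ρ2 : ∀ j, Y / r ^ k j ≤ r := fun j => by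
    refine le_of_mul_le_mul_left ((ρ1 j).trans ?_) w0
    nlinarith
  let x : V ι → ℝ := fun v => match v with
    | inl i => ![r, w, Y, r / (1 - r), 0] i
    | inr (j, i) => ![k j * w, Y / r ^ k j, 0, Y] i
  have ha : GG x * (1 - (r : ℂ)) = 1 := by
    have : (1 : ℂ) - r ≠ 0 := by exact_mod_cast (show 1 - r ≠ 0 by linarith)
    simp [GG, x]
    field_simp
    ring
  have an : ‖(r : ℂ)‖ = r := by simp [r0.le]
  obtain ⟨c, hc⟩ : ∃ c : ℝ, c = w ^ 2 * Y ^ 2 / 2 := ⟨_, rfl⟩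
  have c0 : 0 < c := by rw [hc]; positivity
  refine ⟨x, ?_, ⟨r, ha, by linarith⟩, 1 / (r * c), by positivity, fun γ h0 h => ?_⟩
  · refine lt_of_le_of_lt ((pi_norm_le_iff_of_nonneg (show 0 ≤ 2 * r by positivity)).2 fun v => ?_) (by linarith)
    rw [Real.norm_eq_abs]
    rcases v with i | ⟨j, i⟩ <;> fin_cases i <;> simp only [x] <;> refine abs_le.2 ⟨?_, ?_⟩ <;> simp <;> try linarith
    · exact le_trans (by linarith) (div_nonneg r0.le (by linarith))
    · rw [div_le_iff₀ (by linarith)]; nlinarith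
    · exact le_trans (by linarith) (show (0 : ℝ) ≤ k j * w by positivity)
    · have : (k j : ℝ) ≤ K := by exact_mod_cast hK j
      nlinarith
    · linarith [ρ0 j]
    · linarith [ρ2 j]
  · obtain ⟨e1, e2, e3⟩ := expl h (a := r) (h0 ▸ ha)
    have b0 : ∀ j, bb x j = ((Y / r ^ k j : ℝ) : ℂ) := fun j => by simp [bb, x]
    simp only [h0, b0] at e1 e2 e3
    have hT0 : 0 ≤ 1 / (r * c) := by positivity
    have hT : r * (c * (1 / (r * c))) = 1 := by field_simp
    generalize 1 / (r * c) = T at *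
    have x1 : x (inl 1) = w := rfl
    have x2 : x (inl 2) = Y := rfl
    have x3 : ∀ j, x (inr (j, 0)) = k j * w := fun _ => rfl
    simp only [x1, x2, x3] at e1 e2 e3
    have q : ∀ j, ∀ t ∈ Icc (0 : ℝ) T, |γ t (inr (j, 3)) - Y| ≤ 6 * s * Y := fun j => by
      obtain ⟨N, hN, hN'⟩ := small r0.le (by linarith) le_rfl w0 (k j)
      obtain ⟨A, A', f1, f2, f3⟩ := four r ((Y / r ^ k j : ℝ) : ℂ) w (k j * w) w (by linarith) w0 N (k j) hN fun l n => by
        have k5 : (1 : ℝ) ≤ |(l : ℝ) - k j| := by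
          have : (1 : ℤ) ≤ |(l : ℤ) - k j| := Int.one_le_abs (sub_ne_zero.2 (by exact_mod_cast n))
          exact_mod_cast this
        rw [← sub_mul, abs_mul, abs_of_pos w0]
        nlinarith
      have e : ∀ t, (rot ((r : ℂ) ^ k j * (starRingEnd ℂ) ((Y / r ^ k j : ℝ) : ℂ)) (k j * w - k j * w) t).re = Y := fun t => by
        have : (r : ℂ) ^ k j * (starRingEnd ℂ) ((Y / r ^ k j : ℝ) : ℂ) = Y := by
          have : (r : ℂ) ≠ 0 := by exact_mod_cast r0.ne'
          rw [conj_ofReal]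
          push_cast
          field_simp
        rw [rot, this, sub_self]
        simp
      simp only [e, an, norm_real, Real.norm_eq_abs, abs_of_pos (ρ0 j)] at f2 f3
      have g1 : ∀ t, |w ^ 2 * A t| ≤ 2 * s * Y := fun t => by
        have := (le_div_iff₀ w0).1 (f2 t)
        rw [abs_mul, abs_of_pos (pow_pos w0 2)]
        nlinarith [ρ1 j]
      have g2 := filt (T := T) (u := fun t => γ t (inr (j, 3)) - w ^ 2 * A t - Y) (M := 4 * s * Y) (b := w ^ 2)
        (β := fun t => (GG (γ t) * (starRingEnd ℂ) (rot ((Y / r ^ k j : ℝ) : ℂ) (k j * w) t)).re - A' t - Y - w ^ 2 * A t)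
        (sq_nonneg w) (fun t ht => (((e2 j t ht).fun_sub ((f1 t).hasDerivWithinAt.const_mul _)).sub_const Y).congr_deriv (by ring))
        (fun t ht => (abs_sub _ _).trans (by
          have := f3 t _ (e1 t ht).2.2.2.1
          have := mul_le_mul_of_nonneg_right hN' (ρ0 j).le
          linarith [g1 t, ρ1 j])) (by
          have : x (inr (j, 3)) = Y := rfl
          simp only [h0, this]
          rw [show Y - w ^ 2 * A 0 - Y = -(w ^ 2 * A 0) by ring, abs_neg]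
          nlinarith [g1 0])
      intro t ht
      have := abs_add_le (γ t (inr (j, 3)) - w ^ 2 * A t - Y) (w ^ 2 * A t)
      rw [show γ t (inr (j, 3)) - w ^ 2 * A t - Y + w ^ 2 * A t = γ t (inr (j, 3)) - Y by ring] at this
      linarith [g2 t ht, g1 t]
    have z := grow' e3 (c := c) (fun t ht => by
      have k1 : ∑ j, (γ t (inr (j, 3)) - Y) ^ 2 ≤ m * (6 * s * Y) ^ 2 := by
        rw [hm, ← nsmul_eq_mul, ← Finset.card_univ]
        exact Finset.sum_le_card_nsmul _ _ _ fun j _ => sq_le_sq.2 ((q j t ht).trans (le_abs_self _))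
      have k2 : m * (6 * s * Y) ^ 2 ≤ Y ^ 2 / 100 := by
        have a1 : m * s ≤ 1 / 60 := by nlinarith
        have a2 : s ≤ 1 / 60 := by nlinarith
        have a3 : m * s * s ≤ 1 / 60 * (1 / 60) := by gcongr
        nlinarith [sq_nonneg Y]
      have k3 : Y ^ 4 = w ^ 2 * Y ^ 2 / 4 := by rw [hY]; ring
      have k4 := mul_le_mul_of_nonneg_left (k1.trans k2) (sq_nonneg w)
      simp only [rate, hk, hc, k3]
      nlinarith [mul_pos (pow_pos w0 2) (pow_pos Y0 2)]) T ⟨hT0, le_rfl⟩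
    have x0 : x (inl 0) = r := rfl
    simp only [h0, x0, abs_of_pos r0] at z
    refine le_trans ?_ (z.trans (norm_le_pi_norm (γ T) (inl 0)))
    have := Real.add_one_le_exp (c * T)
    nlinarith

end Pool.Agent.H.MP_c22137_lc
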