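import Mathlib
import Pool.Agent.H.MP_c22137_lc.E
import Pool.Agent.Lib.helper22.H10f

set_option autoImplicit false

namespace Pool.Agent.H.MP_c22137_lc

open Set Sum

variable {N : ℕ}

/-- homogenised linear form -/
def Lf (w : ℝ) (ω : Fin (N + 1) × Bool → ℝ) (u : List (Unit ⊕ Fin (N + 1))) : ℝ :=
  (u.map (Sum.elim (fun _ => w) fun i => ω (i, true) - ω (i, false))).sum

/-- equations -/
abbrev Eqn (N : ℕ) := Bool × List (Unit ⊕ Fin (N + 1)) × List (Unit ⊕ Fin (N + 1))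

/-- homogenised equation -/
def Ef (w : ℝ) (ω : Fin (N + 1) × Bool → ℝ) (e : Eqn N) : ℝ :=
  cond e.1 (Lf w ω e.2.1) w * Lf w ω e.2.1 - w * Lf w ω e.2.2

/-- penalty -/
def Pen (E : List (Eqn N)) (n : ℝ) (w : ℝ) (ω : Fin (N + 1) × Bool → ℝ) : ℝ :=
  2 * (E.map fun e => Ef w ω e ^ 2).sum + (ω (0, true) - ω (0, false) - n * w) ^ 2

/-- solvability over the integers -/
def Solv (E : List (Eqn N)) (n : ℕ) : Prop := ∃ σ : Fin (N + 1) → ℤ, σ 0 = n ∧ ∀ e ∈ E,
  cond e.1 (e.2.1.map (Sum.elim 1 σ)).sum 1 * (e.2.1.map (Sum.elim 1 σ)).sum = (e.2.2.map (Sum.elim 1 σ)).sum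

theorem pen_nonneg (E : List (Eqn N)) (n w : ℝ) (ω : Fin (N + 1) × Bool → ℝ) : 0 ≤ Pen E n w ω := by
  have : 0 ≤ (E.map fun e => Ef w ω e ^ 2).sum := List.sum_nonneg fun x hx => by
    obtain ⟨e, -, rfl⟩ := List.mem_map.1 hx
    positivity
  unfold Pen
  positivity

theorem Lf_near {w η θ y : ℝ} {ω : Fin (N + 1) × Bool → ℝ} {σ : Fin (N + 1) → ℤ} (hη : 0 ≤ η) (hy : 0 ≤ y) (h1 : y ≤ θ)
    (h : ∀ i, |ω (i, true) - ω (i, false) - w * σ i| ≤ η ∧ y * |(σ i : ℝ)| ≤ θ) (u : List (Unit ⊕ Fin (N + 1))) :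
    |Lf w ω u - w * ((u.map (Sum.elim 1 σ)).sum : ℤ)| ≤ u.length * η ∧
      y * |(((u.map (Sum.elim 1 σ)).sum : ℤ) : ℝ)| ≤ u.length * θ := by
  induction u with
  | nil => simp [Lf]
  | cons a u ih =>
    have k : |Sum.elim (fun _ => w) (fun i => ω (i, true) - ω (i, false)) a - w * (Sum.elim 1 σ a : ℤ)| ≤ η ∧
        y * |((Sum.elim 1 σ a : ℤ) : ℝ)| ≤ θ := by
      rcases a with a | a
      · simp [hη, h1]
      · exact h a
    simp only [Lf, List.map_cons, List.sum_cons, List.length_cons] at ih ⊢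
    push_cast at ih k ⊢
    constructor
    · refine le_trans (le_of_eq ?_) ((abs_add_le _ _).trans ((add_le_add k.1 ih.1).trans (le_of_eq (by ring))))
      congr 1
      ring
    · have := mul_le_mul_of_nonneg_left (abs_add_le ((Sum.elim 1 σ a : ℤ) : ℝ) (List.map Int.cast (u.map (Sum.elim 1 σ))).sum) hy
      linarith [k.2, ih.2]

theorem pen_zero {E : List (Eqn N)} {n : ℕ} (h : Solv E n) :
    ∃ k : Fin (N + 1) × Bool → ℕ, ∀ w, Pen E n w (fun j => k j * w) = 0 := by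
  obtain ⟨σ, h0, h⟩ := h
  refine ⟨fun j => (cond j.2 (σ j.1) (-σ j.1)).toNat, fun w => ?_⟩
  have k : ∀ i, (((σ i).toNat : ℕ) : ℝ) * w - ((-σ i).toNat : ℕ) * w = w * σ i := fun i => by
    have : (((σ i).toNat : ℕ) : ℝ) - ((-σ i).toNat : ℕ) = σ i := by exact_mod_cast Int.toNat_sub_toNat_neg (σ i)
    rw [← this]; ring
  have l := fun u => (Lf_near (w := w) (ω := fun j => ((cond j.2 (σ j.1) (-σ j.1)).toNat : ℕ) * w) (σ := σ) (η := 0) (y := 0) (θ := 0)
    le_rfl le_rfl le_rfl (fun i => by simp [k]) u).1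
  simp only [mul_zero, abs_nonpos_iff, sub_eq_zero] at l
  have : (E.map fun e => Ef w (fun j => ((cond j.2 (σ j.1) (-σ j.1)).toNat : ℕ) * w) e ^ 2).sum = 0 := by
    refine List.sum_eq_zero fun x hx => ?_
    obtain ⟨⟨b, u, v⟩, he, rfl⟩ := List.mem_map.1 hx
    have := congrArg (Int.cast : ℤ → ℝ) (h _ he)
    cases b <;> simp only [Ef, l, Bool.cond_true, Bool.cond_false] at this ⊢ <;> rw [← this] <;> push_cast <;> ring
  simp only [Pen, this, Bool.cond_true, Bool.cond_false]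
  rw [k, h0]
  push_cast
  ring

theorem pen_pos {E : List (Eqn N)} {n : ℕ} (h : ¬ Solv E n) : ∃ θ : ℝ, 0 < θ ∧
    ∀ (w Y : ℝ) (ω : Fin (N + 1) × Bool → ℝ) (k : Fin (N + 1) × Bool → ℕ), 0 < |Y| → |Y| < |w| → Pen E n w ω < w ^ 2 * Y ^ 2 →
      ¬ ∀ j, |k j * w - ω j| < |Y| * |w| ∧ |Y| * (k j + 1) ≤ θ := by
  obtain ⟨l, l1, hl⟩ : ∃ l : ℝ, 1 ≤ l ∧ ∀ e ∈ E, (e.2.1.length : ℝ) ≤ l ∧ (e.2.2.length : ℝ) ≤ l := by
    clear h
    induction E with
    | nil => exact ⟨1, le_rfl, by simp⟩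
    | cons e E ih =>
      obtain ⟨l, l1, hl⟩ := ih
      have a : (0 : ℝ) ≤ e.2.1.length := by positivity
      have b : (0 : ℝ) ≤ e.2.2.length := by positivity
      refine ⟨l + e.2.1.length + e.2.2.length, by linarith, fun f hf => ?_⟩
      rcases List.mem_cons.1 hf with rfl | hf
      · constructor <;> linarith
      · have := hl f hf
        constructor <;> linarith
  obtain ⟨θ, t0, t1⟩ : ∃ θ : ℝ, 0 < θ ∧ 48 * l ^ 2 * θ = 1 := ⟨1 / (48 * l ^ 2), by positivity, by field_simp⟩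
  refine ⟨θ, t0, fun w Y ω k Y0 Yw hP hk => h ?_⟩
  have t2 : l * θ ≤ 1 / 48 := by nlinarith [mul_pos (mul_pos (by linarith : 0 < l) t0) (by linarith : 0 < l)]
  have t3 : θ ≤ 1 / 48 := by nlinarith
  have w0 : 0 < |w| := Y0.trans Yw
  have Yt : |Y| ≤ θ := by
    have := (hk (0, true)).2
    have : 0 ≤ |Y| * k (0, true) := by positivity
    linarith
  let σ : Fin (N + 1) → ℤ := fun i => k (i, true) - k (i, false)
  have hσ : ∀ i, |ω (i, true) - ω (i, false) - w * σ i| ≤ 2 * (|Y| * |w|) ∧ |Y| * |(σ i : ℝ)| ≤ θ := fun i => by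
    obtain ⟨a1, a2⟩ := hk (i, true)
    obtain ⟨b1, b2⟩ := hk (i, false)
    simp only [σ]
    push_cast
    constructor
    · rw [abs_lt] at a1 b1
      rw [abs_le]
      constructor <;> linarith
    · have c1 : (0 : ℝ) ≤ k (i, true) := by positivity
      have c2 : (0 : ℝ) ≤ k (i, false) := by positivity
      rcases abs_cases ((k (i, true) : ℝ) - k (i, false)) with c | c <;> rw [c.1] <;> nlinarith
  have L := Lf_near (by positivity) Y0.le Yt hσ
  have s0 : ∀ e ∈ E, Ef w ω e ^ 2 ≤ (E.map fun e => Ef w ω e ^ 2).sum := fun e he =>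
    List.single_le_sum (fun x hx => by obtain ⟨e, -, rfl⟩ := List.mem_map.1 hx; positivity) _ (List.mem_map.2 ⟨e, he, rfl⟩)
  have s1 : 0 ≤ (E.map fun e => Ef w ω e ^ 2).sum := List.sum_nonneg fun x hx => by
    obtain ⟨e, -, rfl⟩ := List.mem_map.1 hx
    positivity
  have int : ∀ a b : ℤ, |(a : ℝ) - b| < 1 → a = b := fun a b c => by
    have : |a - b| < 1 := by exact_mod_cast c
    exact sub_eq_zero.1 (Int.abs_lt_one_iff.1 this)
  unfold Pen at hP
  refine ⟨σ, int _ _ ?_, fun e he => int _ _ ?_⟩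
  · have a1 : |ω (0, true) - ω (0, false) - n * w| < |Y| * |w| := by
      rw [← abs_mul]
      exact sq_lt_sq.1 (by nlinarith)
    have a2 := (hσ 0).1
    have a3 : |w| * |(σ 0 : ℝ) - (n : ℤ)| ≤ |ω (0, true) - ω (0, false) - n * w| + |ω (0, true) - ω (0, false) - w * σ 0| := by
      rw [← abs_mul, show w * ((σ 0 : ℝ) - (n : ℤ)) = (ω (0, true) - ω (0, false) - n * w) -
        (ω (0, true) - ω (0, false) - w * σ 0) by push_cast; ring]
      exact abs_sub _ _
    refine lt_of_mul_lt_mul_left (a := |w|) ?_ w0.le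
    nlinarith
  · obtain ⟨b, u, v⟩ := e
    obtain ⟨l1, l2⟩ := hl _ he
    obtain ⟨u1, u2⟩ := L u
    obtain ⟨v1, -⟩ := L v
    have a0 : Y ^ 2 < w ^ 2 := sq_lt_sq.2 Yw
    have w2 : 0 < w ^ 2 := by rw [← sq_abs]; positivity
    have a1 : |Ef w ω (b, u, v)| < 3 / 4 * w ^ 2 := by
      refine abs_lt_of_sq_lt_sq ?_ (by positivity)
      nlinarith [s0 _ he, sq_nonneg (ω (0, true) - ω (0, false) - n * w), mul_pos w2 w2]
    have yw : 0 < |Y| * |w| := mul_pos Y0 w0
    replace u1 := u1.trans (mul_le_mul_of_nonneg_right l1 (by positivity))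
    replace u2 := u2.trans (mul_le_mul_of_nonneg_right l1 t0.le)
    replace v1 := v1.trans (mul_le_mul_of_nonneg_right l2 (by positivity))
    simp only [Ef] at a1
    simp only
    generalize Lf w ω u = p at *
    generalize Lf w ω v = q at *
    generalize (u.map (Sum.elim 1 σ)).sum = A at *
    generalize (v.map (Sum.elim 1 σ)).sum = B at *
    have c0 : l * (2 * (|Y| * |w|)) ≤ 1 / 24 * |w| := by
      have : l * |Y| ≤ 1 / 48 := by nlinarith
      nlinarith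
    have c1 : ∀ d : ℝ, |d| ≤ l * (2 * (|Y| * |w|)) → |w * d| ≤ 1 / 24 * w ^ 2 := fun d hd => by
      rw [abs_mul, ← sq_abs]
      nlinarith
    have c2 := abs_le.1 (c1 _ u1)
    have c3 := abs_le.1 (c1 _ v1)
    rw [abs_lt] at a1
    refine lt_of_mul_lt_mul_left (a := w ^ 2) ?_ w2.le
    rw [← abs_of_pos w2, ← abs_mul, abs_of_pos w2, abs_lt]
    cases b
    · simp only [cond] at a1 ⊢
      push_cast
      constructor <;> nlinarith
    · simp only [cond] at a1 ⊢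
      push_cast
      have c4 : |(p - w * A) * (p - w * A)| ≤ 1 / 24 * w ^ 2 := by
        rw [abs_mul, ← sq_abs]
        have := u1.trans c0
        nlinarith [abs_nonneg (p - w * A)]
      have c5 : |(p - w * A) * (w * A)| ≤ 1 / 24 * w ^ 2 := by
        rw [abs_mul, abs_mul, ← sq_abs]
        have d1 := mul_le_mul_of_nonneg_right u1 (show 0 ≤ |w| * |(A : ℝ)| by positivity)
        have d2 := mul_le_mul_of_nonneg_left u2 (show 0 ≤ 2 * l * |w| ^ 2 by positivity)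
        have d3 : 2 * l * |w| ^ 2 * (l * θ) = 1 / 24 * |w| ^ 2 := by linear_combination |w| ^ 2 / 24 * t1
        linarith
      rw [abs_le] at c4 c5
      constructor <;> nlinarith

end Pool.Agent.H.MP_c22137_lc
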