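import Mathlib
import Pool.Agent.H.MP_c22137_lc.F

set_option autoImplicit false

namespace Pool.Agent.H.MP_c22137_lc

open Set Sum

variable {n : ℕ}

/-- integer polynomial function whose monomials have degree between `a` and `b` -/
def Pl (a b : ℕ) (f : (Fin n → ℝ) → ℝ) : Prop := ∃ M : List ((Fin n → ℕ) × ℤ),
  (∀ p ∈ M, a ≤ ∑ j, p.1 j ∧ ∑ j, p.1 j ≤ b) ∧ ∀ x, f x = (M.map fun p => (p.2 : ℝ) * ∏ j, x j ^ p.1 j).sum

variable {a b a' b' : ℕ} {f g : (Fin n → ℝ) → ℝ}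

theorem Pl.zero : Pl (n := n) a b fun _ => 0 := ⟨[], by simp, by simp⟩

theorem Pl.var (i : Fin n) : Pl 1 1 fun x => x i :=
  ⟨[(Pi.single i 1, 1)], by simp, fun x => by simp [Pi.single_apply, Finset.prod_ite_eq', pow_ite]⟩

theorem Pl.mono (h : Pl a' b' f) (ha : a ≤ a') (hb : b' ≤ b) : Pl a b f := by
  obtain ⟨M, h1, h2⟩ := h
  exact ⟨M, fun p hp => ⟨ha.trans (h1 p hp).1, (h1 p hp).2.trans hb⟩, h2⟩

theorem Pl.add (h : Pl a b f) (k : Pl a b g) : Pl a b fun x => f x + g x := by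
  obtain ⟨M, h1, h2⟩ := h
  obtain ⟨M', k1, k2⟩ := k
  exact ⟨M ++ M', fun p hp => (List.mem_append.1 hp).elim (h1 p) (k1 p), fun x => by simp [h2, k2]⟩

theorem Pl.smul (c : ℤ) (h : Pl a b f) : Pl a b fun x => c * f x := by
  obtain ⟨M, h1, h2⟩ := h
  refine ⟨M.map fun p => (p.1, c * p.2), fun p hp => ?_, fun x => ?_⟩
  · obtain ⟨q, hq, rfl⟩ := List.mem_map.1 hp
    exact h1 q hq
  · beta_reduce
    rw [h2, ← List.sum_map_mul_left, List.map_map]
    congr 2
    ext p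
    simp [mul_assoc]

theorem Pl.of_eq (h : Pl a b f) (e : ∀ x, g x = f x) : Pl a b g := by rwa [funext e]

theorem Pl.neg (h : Pl a b f) : Pl a b fun x => - f x := (h.smul (-1)).of_eq fun x => by simp

theorem Pl.sub (h : Pl a b f) (k : Pl a b g) : Pl a b fun x => f x - g x := (h.add k.neg).of_eq fun x => by ring

theorem Pl.two (h : Pl a b f) : Pl a b fun x => 2 * f x := (h.smul 2).of_eq fun x => by simp

theorem Pl.mul (h : Pl a b f) (k : Pl a' b' g) : Pl (a + a') (b + b') fun x => f x * g x := by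
  obtain ⟨M, h1, h2⟩ := h
  obtain ⟨M', k1, k2⟩ := k
  simp only [h2, k2]
  clear h2 k2
  induction M with
  | nil => simpa using Pl.zero
  | cons p M ih =>
    refine (Pl.add (f := fun x => ((p.2 : ℝ) * ∏ j, x j ^ p.1 j) * (M'.map fun p => (p.2 : ℝ) * ∏ j, x j ^ p.1 j).sum)
      ⟨M'.map fun q => (p.1 + q.1, p.2 * q.2), fun r hr => ?_, fun x => ?_⟩
      (ih fun q hq => h1 q (List.mem_cons_of_mem _ hq))).of_eq fun x => by simp [add_mul]
    · obtain ⟨q, hq, rfl⟩ := List.mem_map.1 hr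
      have := h1 p List.mem_cons_self
      have := k1 q hq
      simp only [Pi.add_apply, Finset.sum_add_distrib]
      omega
    · beta_reduce
      rw [← List.sum_map_mul_left, List.map_map]
      congr 2
      ext q
      simp [pow_add, Finset.prod_mul_distrib]
      ring

theorem Pl.sq (h : Pl a b f) : Pl (a + a) (b + b) fun x => f x ^ 2 := (h.mul h).of_eq fun x => by ring

theorem Pl.lsum {α : Type} (l : List α) {F : α → (Fin n → ℝ) → ℝ} (h : ∀ i, Pl a b (F i)) :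
    Pl a b fun x => (l.map fun i => F i x).sum := by
  induction l with
  | nil => simpa using Pl.zero
  | cons i l ih => simpa using (h i).add ih

theorem Pl.fsum {α : Type} (s : Finset α) {F : α → (Fin n → ℝ) → ℝ} (h : ∀ i, Pl a b (F i)) :
    Pl a b fun x => ∑ i ∈ s, F i x := (Pl.lsum s.toList h).of_eq fun x => by simp

/-- value of a list of terms -/
def ev (L : List (Fin n × (Fin n → ℕ) × ℤ)) (x : Fin n → ℝ) (i : Fin n) : ℝ :=
  (L.map fun p => if p.1 = i then (p.2.2 : ℝ) * ∏ j, x j ^ p.2.1 j else 0).sum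

theorem exists_list {F : (Fin n → ℝ) → Fin n → ℝ} (h : ∀ i, Pl a b fun x => F x i) :
    ∃ L : List (Fin n × (Fin n → ℕ) × ℤ), (∀ p ∈ L, a ≤ ∑ j, p.2.1 j ∧ ∑ j, p.2.1 j ≤ b) ∧ ∀ x, ev L x = F x := by
  suffices ∀ s : Finset (Fin n), ∃ L : List (Fin n × (Fin n → ℕ) × ℤ), (∀ p ∈ L, a ≤ ∑ j, p.2.1 j ∧ ∑ j, p.2.1 j ≤ b) ∧
      ∀ x i, ev L x i = if i ∈ s then F x i else 0 by
    obtain ⟨L, h1, h2⟩ := this Finset.univ
    exact ⟨L, h1, fun x => funext fun i => by simp [h2]⟩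
  intro s
  induction s using Finset.induction_on with
  | empty => exact ⟨[], by simp, by simp [ev]⟩
  | insert k s hk ih =>
    obtain ⟨L, h1, h2⟩ := ih
    obtain ⟨M, k1, k2⟩ := h k
    refine ⟨M.map (fun p => (k, p)) ++ L, fun p hp => ?_, fun x i => ?_⟩
    · rcases List.mem_append.1 hp with hp | hp
      · obtain ⟨q, hq, rfl⟩ := List.mem_map.1 hp
        exact k1 q hq
      · exact h1 p hp
    · have := h2 x i
      simp only [ev, List.map_append, List.sum_append, List.map_map] at this ⊢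
      rw [this]
      by_cases e : k = i
      · subst e
        simp [hk, k2, Function.comp_def]
      · simp [e, Ne.symm e, Function.comp_def]

/-- strong form of stability -/
def St (F : (Fin n → ℝ) → Fin n → ℝ) : Prop := ∀ ε, 0 < ε → ∃ δ, 0 < δ ∧
  (∀ x, ‖x‖ < δ → ∃ γ : ℝ → Fin n → ℝ, γ 0 = x ∧ ∀ t, HasDerivAt γ (F (γ t)) t) ∧
  ∀ (T : ℝ) (γ : ℝ → Fin n → ℝ), ‖γ 0‖ < δ → (D T γ fun t => F (γ t)) → ∀ t ∈ Icc (0 : ℝ) T, ‖γ t‖ < ε

/-- strong form of instability -/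
def Un (F : (Fin n → ℝ) → Fin n → ℝ) : Prop := ∀ δ, 0 < δ → ∃ x, ‖x‖ < δ ∧
  (∃ γ : ℝ → Fin n → ℝ, γ 0 = x ∧ ∀ t, HasDerivAt γ (F (γ t)) t) ∧
  ∃ T, 0 ≤ T ∧ ∀ γ : ℝ → Fin n → ℝ, γ 0 = x → (D T γ fun t => F (γ t)) → 1 ≤ ‖γ T‖

section
variable {ι : Type} [Fintype ι] {Pn : ℝ → (ι → ℝ) → ℝ} (e : V ι ≃ Fin n)

theorem tr_sol {x : Fin n → ℝ} (h : ∃ γ : ℝ → V ι → ℝ, γ 0 = x ∘ e ∧ ∀ t, HasDerivAt γ (fld Pn (γ t)) t) :
    ∃ γ : ℝ → Fin n → ℝ, γ 0 = x ∧ ∀ t, HasDerivAt γ (fld Pn (γ t ∘ e) ∘ e.symm) t := by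
  obtain ⟨γ, h0, h⟩ := h
  refine ⟨fun t => γ t ∘ e.symm, by ext; simp [h0], fun t => hasDerivAt_pi.2 fun i => ?_⟩
  have : (γ t ∘ e.symm) ∘ e = γ t := by ext; simp
  rw [this]
  exact hasDerivAt_pi.1 (h t) (e.symm i)

theorem tr_D {T : ℝ} {γ : ℝ → Fin n → ℝ} (h : D T γ fun t => fld Pn (γ t ∘ e) ∘ e.symm) :
    D T (fun t => γ t ∘ e) fun t => fld Pn (γ t ∘ e) := fun t ht => hasDerivWithinAt_pi.2 fun v => by
  simpa using hasDerivWithinAt_pi.1 (h t ht) (e v)

end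

theorem main : ∃ (n : ℕ) (L0 L1 L2 : List (Fin n × (Fin n → ℕ) × ℤ)) (S : ℕ → Prop), 0 < n ∧
    (∀ p, p ∈ L0 ∨ p ∈ L1 ∨ p ∈ L2 → 1 ≤ ∑ j, p.2.1 j ∧ ∑ j, p.2.1 j ≤ 5) ∧ ¬ ComputablePred S ∧
    ∀ m : ℕ, (¬ S m → St fun x i => ev L0 x i + m * ev L1 x i + (m * m : ℕ) * ev L2 x i) ∧
      (S m → Un fun x i => ev L0 x i + m * ev L1 x i + (m * m : ℕ) * ev L2 x i) := by
  obtain ⟨N, E, hE⟩ := Pool.Agent.Lib.H10.exists_sq
  let e := Fintype.equivFin (V (Fin (N + 1) × Bool))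
  have v := fun i => Pl.var (e i)
  have lf : ∀ u, Pl 1 1 fun x => Lf (x (e (inl 1))) (fun j => x (e (inr (j, 0)))) u := fun u =>
    (Pl.lsum u (F := fun a x => Sum.elim (fun _ => x (e (inl 1))) (fun i => x (e (inr ((i, true), 0))) - x (e (inr ((i, false), 0)))) a)
      fun a => by
        rcases a with a | a
        · exact v _
        · exact (v _).sub (v _))
  have ef : ∀ q, Pl 2 2 fun x => Ef (x (e (inl 1))) (fun j => x (e (inr (j, 0)))) q := fun ⟨b, u, w⟩ => by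
    cases b
    · exact ((v _).mul (lf _)).sub ((v _).mul (lf _))
    · exact ((lf _).mul (lf _)).sub ((v _).mul (lf _))
  obtain ⟨L0, a0, b0⟩ := exists_list (a := 1) (b := 5) (F := fun x => fld (Pen E 0) (x ∘ e) ∘ e.symm) fun i => by
    obtain ⟨i, rfl⟩ := e.surjective i
    simp only [Function.comp_apply, Equiv.symm_apply_apply]
    rcases i with i | ⟨j, i⟩ <;> fin_cases i
    · refine ((v (inl 0)).mul (a' := 2) (b' := 4) (Pl.sub (Pl.sub (Pl.sub ?_ ?_) ?_) (Pl.add ?_ ?_))).mono (by norm_num) le_rfl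
      · exact ((v _).sq.mul (v _).sq).mono (by norm_num) le_rfl
      · exact ((v (inl 2)).sq.sq.mono (by norm_num) le_rfl).of_eq fun x => by simp; ring
      · exact ((v _).sq.two.mul (Pl.fsum _ fun j => ((v _).sub (v _)).sq)).mono (by norm_num) le_rfl
      · exact (Pl.lsum E fun q => (ef q).sq).two.mono (by norm_num) le_rfl
      · exact (((v (inr ((0, true), 0))).sub (v (inr ((0, false), 0)))).sq.mono le_rfl (by norm_num)).of_eq fun x => by simp
    · exact Pl.zero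
    · exact Pl.zero
    · exact ((v _).mul (a' := 1) (b' := 2) (Pl.add ((v _).mono le_rfl (by norm_num))
        (((v _).two.mul (v _)).mono (by norm_num) le_rfl))).neg.mono (by norm_num) (by norm_num)
    · exact ((v _).mul (a' := 1) (b' := 2) (Pl.sub (Pl.add ((v _).mono le_rfl (by norm_num))
        ((v _).sq.mono (by norm_num) le_rfl)) ((v _).sq.mono (by norm_num) le_rfl))).mono (by norm_num) (by norm_num)
    · exact Pl.zero
    · exact ((v _).mul (v _)).neg.mono (by norm_num) (by norm_num)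
    · exact ((v _).mul (v _)).mono (by norm_num) (by norm_num)
    · refine ((v _).sq.mul (a' := 1) (b' := 2) (Pl.sub (Pl.add ?_ (((v _).mul (v _)).mono (by norm_num) le_rfl))
        ((v _).mono le_rfl (by norm_num)))).mono (by norm_num) (by norm_num)
      exact (Pl.add ((v (inr (j, 1))).mono le_rfl (by norm_num))
        (((v (inl 3)).mul (v (inr (j, 1)))).mono (by norm_num) le_rfl)).of_eq fun x => by simp; ring
  obtain ⟨L1, a1, b1⟩ := exists_list (a := 1) (b := 5) (F := fun x i => if i = e (inl 0) then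
      2 * (x (e (inl 0)) * (x (e (inr ((0, true), 0))) - x (e (inr ((0, false), 0)))) * x (e (inl 1))) else 0) fun i => by
    split_ifs
    · exact (((v _).mul ((v _).sub (v _))).mul (v _)).two.mono (by norm_num) (by norm_num)
    · exact Pl.zero
  obtain ⟨L2, a2, b2⟩ := exists_list (a := 1) (b := 5) (F := fun x i => if i = e (inl 0) then
      -(x (e (inl 0)) * x (e (inl 1)) ^ 2) else 0) fun i => by
    split_ifs
    · exact ((v _).mul (v _).sq).neg.mono (by norm_num) (by norm_num)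
    · exact Pl.zero
  refine ⟨_, L0, L1, L2, Solv E, Fintype.card_pos, fun p hp => hp.elim (a0 p) fun hp => hp.elim (a1 p) (a2 p), hE, fun m => ?_⟩
  have key : (fun x i => ev L0 x i + m * ev L1 x i + (m * m : ℕ) * ev L2 x i) = fun x => fld (Pen E m) (x ∘ e) ∘ e.symm := by
    ext x i
    obtain ⟨i, rfl⟩ := e.surjective i
    simp only [b0, b1, b2, Function.comp_apply, Equiv.symm_apply_apply, EmbeddingLike.apply_eq_iff_eq]
    rcases i with i | ⟨j, i⟩ <;> fin_cases i <;> simp [fld, rate, Pen]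
    ring
  have nm : ∀ x : Fin _ → ℝ, ‖x ∘ e‖ = ‖x‖ := fun x => e.surjective.pi_norm_comp x
  rw [key]
  refine ⟨fun h ε hε => ?_, fun h δ hδ => ?_⟩
  · obtain ⟨θ, t0, H⟩ := pen_pos h
    obtain ⟨δ, d0, d1, k⟩ := stab (pen_nonneg E m) t0 H hε
    refine ⟨δ, d0, fun x hx => tr_sol e ?_, fun T γ h0 h t ht => nm _ ▸ k T _ (by rwa [nm]) (tr_D e h) t ht⟩
    obtain ⟨a, ha, an⟩ := exists_a (x ∘ e) d1 fun v => (norm_le_pi_norm x _).trans hx.le
    exact exists_sol _ ha (by linarith)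
  · obtain ⟨k, hk⟩ := pen_zero h
    obtain ⟨x, hx, ⟨a, ha, an⟩, T, T0, H⟩ := unst k hk hδ
    obtain ⟨x, rfl⟩ : ∃ y, x = y ∘ e := ⟨x ∘ e.symm, by ext; simp⟩
    exact ⟨x, by rwa [← nm], tr_sol e (exists_sol _ ha an), T, T0, fun γ h0 h => nm _ ▸ H _ (by simp [h0]) (tr_D e h)⟩

/-- repetition of a list -/
def rep {α : Type} (L : List α) (m : ℕ) : List α := Nat.rec [] (fun _ r => L ++ r) m

theorem rep_prim {α : Type} [Primcodable α] (L : List α) : Primrec (rep L) :=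
  Primrec.nat_rec₁ [] (Primrec.list_append.comp₂ (Primrec₂.const L) Primrec₂.right)

theorem rep_sum {α : Type} (L : List α) (f : α → ℝ) (m : ℕ) : ((rep L m).map f).sum = m * (L.map f).sum := by
  induction m with
  | zero => simp [rep]
  | succ m ih =>
    change ((L ++ rep L m).map f).sum = _
    simp [ih]
    ring

theorem mem_rep {α : Type} {L : List α} {m : ℕ} {p : α} (h : p ∈ rep L m) : p ∈ L := by
  induction m with
  | zero => simp [rep] at h
  | succ m ih => exact (List.mem_append.1 h).elim id ih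

end Pool.Agent.H.MP_c22137_lc
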